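import Mathlib

/-!
# An arrangement of rank 5 whose tope graph is not vertex-transitive and with `Φ_{2n} ∤ Q`
-/

set_option autoImplicit false

open Polynomial

namespace Pool.Agent.Results.MP_0e848e_co.ProductArrangement

/-! ### Definitions -/

section defs

variable {d : ℕ} (A : Finset (Submodule ℝ (Fin d → ℝ)))

/-- `A` consists of linear hyperplanes of `ℝ^d`. -/
def IsArrangement : Prop := ∀ H ∈ A, Module.finrank ℝ H + 1 = d

/-- The rank: the codimension of the intersection of all hyperplanes. -/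
noncomputable def rank : ℕ := d - Module.finrank ℝ (⨅ H ∈ A, H : Submodule ℝ (Fin d → ℝ))

/-- The complement of the union of the hyperplanes. -/
def compl : Set (Fin d → ℝ) := {x | ∀ H ∈ A, x ∉ H}

/-- `C` is a chamber: a connected component of the complement. -/
def IsChamber (C : Set (Fin d → ℝ)) : Prop :=
  ∃ x ∈ compl A, C = connectedComponentIn (compl A) x

/-- The type of chambers. -/
abbrev Ch : Type := {C : Set (Fin d → ℝ) // IsChamber A C}

/-- `H` separates the chambers `C`, `D`: every segment from `C` to `D` meets `H`. -/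
def Separates (H : Submodule ℝ (Fin d → ℝ)) (C D : Set (Fin d → ℝ)) : Prop :=
  ∀ x ∈ C, ∀ y ∈ D, ∃ z ∈ segment ℝ x y, z ∈ H

/-- `d(C, D)`: the number of hyperplanes of `A` separating `C` and `D`. -/
noncomputable def dist (C D : Ch A) : ℕ := {H | H ∈ A ∧ Separates H C.1 D.1}.ncard

/-- The tope graph: `C`, `D` are adjacent if exactly one hyperplane separates them. -/
def topeGraph : SimpleGraph (Ch A) := SimpleGraph.fromRel (fun C D => dist A C D = 1)

/-- The `q`-Varchenko matrix, over the field of rational functions. -/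
noncomputable def varchenko : Matrix (Ch A) (Ch A) (RatFunc ℚ) :=
  fun C D => RatFunc.X ^ dist A C D

open Classical in
/-- The `q`-Varchenko matrix is invertible. -/
def VarchenkoInvertible [Fintype (Ch A)] : Prop := IsUnit (varchenko A).det

open Classical in
/-- The magnitude: the sum of all entries of the inverse of the `q`-Varchenko matrix. -/
noncomputable def mag [Fintype (Ch A)] : RatFunc ℚ := ∑ C, ∑ D, (varchenko A)⁻¹ C D

end defs

/-- The automorphism group of `G` acts transitively on the vertices. -/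
def VertexTransitive {V : Type} (G : SimpleGraph V) : Prop := ∀ u v : V, ∃ φ : G ≃g G, φ u = v

/-! ### The arrangement -/

/-- the normals -/
def a : Fin 6 → Fin 5 → ℤ :=
  ![![1,0,0,0,0],![0,1,0,0,0],![0,0,1,0,0],![-1,-1,-1,0,0],![0,0,0,1,0],![0,0,0,0,1]]

/-- the linear forms -/
noncomputable def f (k : Fin 6) : (Fin 5 → ℝ) →ₗ[ℝ] ℝ := ∑ j, (a k j : ℝ) • LinearMap.proj j

lemma f_apply (k : Fin 6) (x : Fin 5 → ℝ) : f k x = ∑ j, (a k j : ℝ) * x j := by
  simp [f, LinearMap.sum_apply]

open Classical in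
/-- the arrangement -/
noncomputable def A : Finset (Submodule ℝ (Fin 5 → ℝ)) := Finset.univ.image (fun k => LinearMap.ker (f k))

/-- integral form of `f` -/
def fz (k : Fin 6) (x : Fin 5 → ℤ) : ℤ := ∑ j, a k j * x j

lemma f_cast (k : Fin 6) (x : Fin 5 → ℤ) : f k (fun j => (x j : ℝ)) = (fz k x : ℤ) := by
  rw [f_apply, fz]; push_cast; rfl

/-- vectors distinguishing the hyperplanes -/
def wit (k l : Fin 6) : Fin 5 → ℤ := fun j =>
  if k = 0 then (if l = 4 ∨ l = 5 then (if (j : ℕ) + 1 = l then 1 else 0) else ![0, 1, 1, 0, 0] j)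
  else if k = 1 then (if l = 4 ∨ l = 5 then (if (j : ℕ) + 1 = l then 1 else 0) else ![1, 0, 1, 0, 0] j)
  else if k = 2 then (if l = 4 ∨ l = 5 then (if (j : ℕ) + 1 = l then 1 else 0) else ![1, 1, 0, 0, 0] j)
  else if k = 3 then (if l = 4 ∨ l = 5 then (if (j : ℕ) + 1 = l then 1 else 0) else ![1, 1, -2, 0, 0] j)
  else if k = 4 then ![1, 1, 1, 0, 1] j
  else ![1, 1, 1, 1, 0] j

lemma wit_spec : ∀ k l : Fin 6, k ≠ l → fz k (wit k l) = 0 ∧ fz l (wit k l) ≠ 0 := by
  decide +kernel

lemma ker_inj : Function.Injective (fun k => LinearMap.ker (f k)) := by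
  intro k l h
  by_contra hkl
  obtain ⟨h1, h2⟩ := wit_spec k l hkl
  have h3 : (fun j => (wit k l j : ℝ)) ∈ LinearMap.ker (f k) := by
    rw [LinearMap.mem_ker, f_cast, h1]; simp
  have h4 : (fun j => (wit k l j : ℝ)) ∈ LinearMap.ker (f l) := by
    have : LinearMap.ker (f k) = LinearMap.ker (f l) := h
    rwa [this] at h3
  rw [LinearMap.mem_ker, f_cast] at h4
  exact h2 (by exact_mod_cast h4)

lemma card_A : A.card = 6 := by
  classical
  unfold A
  rw [Finset.card_image_of_injective _ ker_inj]; rfl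

lemma mem_A {H : Submodule ℝ (Fin 5 → ℝ)} : H ∈ A ↔ ∃ k, LinearMap.ker (f k) = H := by
  simp [A]

lemma f_ne_zero (k : Fin 6) : f k ≠ 0 := by
  intro h
  have hex : ∀ k : Fin 6, ∃ l : Fin 6, l ≠ k := by decide
  obtain ⟨l, hl⟩ := hex k
  have := (wit_spec l k hl).2
  have h2 := f_cast k (wit l k)
  rw [h, LinearMap.zero_apply] at h2
  exact this (by exact_mod_cast h2.symm)

lemma isArr : IsArrangement A := by
  intro H hH
  obtain ⟨k, rfl⟩ := mem_A.1 hH
  have := Module.Dual.finrank_ker_add_one_of_ne_zero (f_ne_zero k)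
  simpa using this

lemma rank_A : rank A = 5 := by
  have : (⨅ H ∈ A, H : Submodule ℝ (Fin 5 → ℝ)) = ⊥ := by
    rw [eq_bot_iff]
    intro x hx
    have hx2 : ∀ k, f k x = 0 := by
      intro k
      have := (Submodule.mem_iInf _).1 hx (LinearMap.ker (f k))
      exact LinearMap.mem_ker.1 ((Submodule.mem_iInf _).1 this (mem_A.2 ⟨k, rfl⟩))
    rw [Submodule.mem_bot]
    have h0 := hx2 0
    have h1 := hx2 1
    have h2 := hx2 2
    have h4 := hx2 4
    have h5 := hx2 5
    simp only [f_apply, Fin.sum_univ_five, a] at h0 h1 h2 h4 h5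
    norm_num at h0 h1 h2 h4 h5
    funext j
    fin_cases j <;> simp_all
  unfold rank
  rw [this, finrank_bot]

/-! ### Sign vectors and regions -/

/-- sign vectors occurring -/
def Valid (σ : Fin 6 → Bool) : Prop := ¬ (σ 0 = σ 1 ∧ σ 1 = σ 2 ∧ σ 2 = σ 3)

instance : DecidablePred Valid := fun σ => by unfold Valid; infer_instance

/-- the index type of the chambers -/
abbrev I : Type := {σ : Fin 6 → Bool // Valid σ}

/-- the sign as a real number -/
noncomputable def sg (b : Bool) : ℝ := if b then 1 else -1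

/-- the region of a sign vector -/
def R (σ : Fin 6 → Bool) : Set (Fin 5 → ℝ) := {x | ∀ k, 0 < sg (σ k) * f k x}

lemma R_sub (σ : Fin 6 → Bool) : R σ ⊆ compl A := by
  intro x hx H hH hxH
  obtain ⟨k, rfl⟩ := mem_A.1 hH
  have := hx k
  rw [LinearMap.mem_ker.1 hxH] at this
  simp at this

lemma R_convex (σ : Fin 6 → Bool) : Convex ℝ (R σ) := by
  intro x hx y hy s t hs ht hst k
  have h1 := hx k
  have h2 := hy k
  have : sg (σ k) * f k (s • x + t • y) = s * (sg (σ k) * f k x) + t * (sg (σ k) * f k y) := by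
    simp only [map_add, map_smul, smul_eq_mul]; ring
  rw [this]
  rcases lt_or_eq_of_le hs with h | h
  · have := mul_pos h h1
    have := mul_nonneg ht h2.le
    linarith
  · subst h
    have : t = 1 := by linarith
    subst this
    simpa using h2

/-- the sign vector of a point -/
noncomputable def sv (x : Fin 5 → ℝ) : Fin 6 → Bool := fun k => decide (0 < f k x)

lemma mem_R_sv {x : Fin 5 → ℝ} (hx : x ∈ compl A) : x ∈ R (sv x) := by
  intro k
  have h0 : f k x ≠ 0 := fun h => hx _ (mem_A.2 ⟨k, rfl⟩) (LinearMap.mem_ker.2 h)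
  unfold sv sg
  rcases lt_or_gt_of_ne h0 with h | h
  · have : ¬ (0 < f k x) := by linarith
    simp [this, h]
  · simp [h]

lemma f_sum (x : Fin 5 → ℝ) : f 0 x + f 1 x + f 2 x + f 3 x = 0 := by
  have h : ∀ j, a 0 j + a 1 j + a 2 j + a 3 j = 0 := by decide
  simp only [f_apply, ← Finset.sum_add_distrib, ← add_mul]
  apply Finset.sum_eq_zero
  intro j _
  have h2 : ((a 0 j + a 1 j + a 2 j + a 3 j : ℤ) : ℝ) = 0 := by rw [h j]; simp
  push_cast at h2
  rw [h2, zero_mul]

lemma valid_of_mem {σ : Fin 6 → Bool} {x : Fin 5 → ℝ} (hx : x ∈ R σ) : Valid σ := by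
  rintro ⟨h1, h2, h3⟩
  have e0 := hx 0
  have e1 := hx 1
  have e2 := hx 2
  have e3 := hx 3
  rw [h1, h2, h3] at e0
  rw [h2, h3] at e1
  rw [h3] at e2
  have := f_sum x
  have h : sg (σ 3) * (f 0 x + f 1 x + f 2 x + f 3 x) > 0 := by
    rw [mul_add, mul_add, mul_add]; linarith
  rw [this, mul_zero] at h
  exact lt_irrefl _ h

/-- number of plus signs among the first four -/
def cnt (σ : Fin 6 → Bool) : ℕ := (Finset.univ.filter (fun k : Fin 4 => σ ⟨k, by omega⟩ = true)).card

/-- a point of the region -/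
def pt (σ : Fin 6 → Bool) : Fin 5 → ℤ := fun j =>
  if j = 3 then (if σ 4 then 1 else -1) else if j = 4 then (if σ 5 then 1 else -1)
  else if σ ⟨j, by omega⟩ then 4 - (cnt σ : ℤ) else - (cnt σ : ℤ)

lemma pt_spec : ∀ σ : Fin 6 → Bool, Valid σ → ∀ k, 0 < (if σ k then (1 : ℤ) else -1) * fz k (pt σ) := by
  decide +kernel

lemma pt_mem (σ : Fin 6 → Bool) (h : Valid σ) : (fun j => (pt σ j : ℝ)) ∈ R σ := by
  intro k
  have := pt_spec σ h k
  rw [f_cast]
  unfold sg
  have h2 : (0 : ℝ) < ((if σ k then (1 : ℤ) else -1) * fz k (pt σ) : ℤ) := by exact_mod_cast this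
  push_cast at h2
  simpa using h2

lemma R_disj {σ τ : Fin 6 → Bool} {x : Fin 5 → ℝ} (h1 : x ∈ R σ) (h2 : x ∈ R τ) : σ = τ := by
  funext k
  have a1 := h1 k
  have a2 := h2 k
  cases hs : σ k <;> cases ht : τ k <;> simp [sg, hs, ht] at a1 a2 ⊢ <;> linarith

lemma comp_eq {x : Fin 5 → ℝ} (hx : x ∈ compl A) : connectedComponentIn (compl A) x = R (sv x) := by
  apply Set.Subset.antisymm
  · intro y hy k
    have hS : IsPreconnected (connectedComponentIn (compl A) x) := isPreconnected_connectedComponentIn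
    have hxS : x ∈ connectedComponentIn (compl A) x := mem_connectedComponentIn hx
    have hcont : Continuous (f k) := LinearMap.continuous_of_finiteDimensional _
    have him : IsPreconnected (f k '' connectedComponentIn (compl A) x) := hS.image _ hcont.continuousOn
    have hoc : (f k '' connectedComponentIn (compl A) x).OrdConnected := him.ordConnected
    have hno : (0 : ℝ) ∉ f k '' connectedComponentIn (compl A) x := by
      rintro ⟨z, hz, hz0⟩
      have := connectedComponentIn_subset _ _ hz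
      exact this _ (mem_A.2 ⟨k, rfl⟩) (LinearMap.mem_ker.2 hz0)
    have hxk := mem_R_sv hx k
    have hfy : f k y ∈ f k '' connectedComponentIn (compl A) x := ⟨y, hy, rfl⟩
    have hfx : f k x ∈ f k '' connectedComponentIn (compl A) x := ⟨x, hxS, rfl⟩
    by_contra hcon
    push Not at hcon
    apply hno
    unfold sv sg at hxk hcon
    by_cases hp : 0 < f k x
    · simp only [hp, decide_true, if_true, one_mul] at hcon
      exact hoc.out hfy hfx ⟨hcon, hp.le⟩
    · simp only [hp, decide_false, Bool.false_eq_true, if_false] at hcon hxk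
      exact hoc.out hfx hfy ⟨by linarith, by linarith⟩
  · exact (R_convex _).isPreconnected.subset_connectedComponentIn (mem_R_sv hx) (R_sub _)

/-- the chambers are the regions of the valid sign vectors -/
noncomputable def toCh (σ : I) : Ch A :=
  ⟨R σ.1, (fun j => (pt σ.1 j : ℝ)), R_sub _ (pt_mem _ σ.2), by
    rw [comp_eq (R_sub _ (pt_mem _ σ.2)), R_disj (mem_R_sv (R_sub _ (pt_mem _ σ.2))) (pt_mem _ σ.2)]⟩

lemma toCh_bij : Function.Bijective toCh := by
  constructor
  · intro σ τ h
    have h2 : R σ.1 = R τ.1 := congrArg Subtype.val h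
    apply Subtype.ext
    have := pt_mem _ σ.2
    exact R_disj this (h2 ▸ this)
  · rintro ⟨C, x, hx, rfl⟩
    refine ⟨⟨sv x, valid_of_mem (mem_R_sv hx)⟩, ?_⟩
    apply Subtype.ext
    exact (comp_eq hx).symm

/-- the equivalence -/
noncomputable def e : I ≃ Ch A := Equiv.ofBijective _ toCh_bij

lemma sep_iff (k : Fin 6) (σ τ : I) :
    Separates (LinearMap.ker (f k)) (R σ.1) (R τ.1) ↔ σ.1 k ≠ τ.1 k := by
  constructor
  · intro h hk
    obtain ⟨z, ⟨s, t, hs, ht, hst, rfl⟩, hz⟩ := h _ (pt_mem _ σ.2) _ (pt_mem _ τ.2)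
    have h1 := pt_mem _ σ.2 k
    have h2 := pt_mem _ τ.2 k
    rw [← hk] at h2
    set x : Fin 5 → ℝ := fun j => (pt σ.1 j : ℝ)
    set y : Fin 5 → ℝ := fun j => (pt τ.1 j : ℝ)
    have h3 : sg (σ.1 k) * f k (s • x + t • y) = s * (sg (σ.1 k) * f k x) + t * (sg (σ.1 k) * f k y) := by
      simp only [map_add, map_smul, smul_eq_mul]; ring
    rw [LinearMap.mem_ker.1 hz, mul_zero] at h3
    rcases lt_or_eq_of_le hs with h | h
    · have := mul_pos h h1
      have := mul_nonneg ht h2.le
      linarith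
    · subst h
      have : t = 1 := by linarith
      subst this
      linarith
  · intro hk x hx y hy
    have h1 := hx k
    have h2 := hy k
    have h0 : (0 : ℝ) ∈ f k '' segment ℝ x y := by
      have : f k '' segment ℝ x y = segment ℝ (f k x) (f k y) := by
        have := image_segment ℝ (f k).toAffineMap x y
        simpa using this
      rw [this, segment_eq_uIcc, Set.mem_uIcc]
      cases hs : σ.1 k <;> cases ht : τ.1 k <;> simp [sg, hs, ht] at h1 h2 hk ⊢
      · left; constructor <;> linarith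
      · right; constructor <;> linarith
    obtain ⟨z, hz, hz0⟩ := h0
    exact ⟨z, hz, LinearMap.mem_ker.2 hz0⟩

/-- Hamming distance -/
def hd (σ τ : I) : ℕ := (Finset.univ.filter (fun k => σ.1 k ≠ τ.1 k)).card

lemma dist_eq (σ τ : I) : dist A (e σ) (e τ) = hd σ τ := by
  have : {H | H ∈ A ∧ Separates H (e σ).1 (e τ).1} =
      (fun k => LinearMap.ker (f k)) '' {k | σ.1 k ≠ τ.1 k} := by
    ext H
    constructor
    · rintro ⟨hA, hS⟩
      obtain ⟨k, rfl⟩ := mem_A.1 hA
      exact ⟨k, (sep_iff k σ τ).1 hS, rfl⟩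
    · rintro ⟨k, hk, rfl⟩
      exact ⟨mem_A.2 ⟨k, rfl⟩, (sep_iff k σ τ).2 hk⟩
  unfold dist hd
  rw [this, Set.ncard_image_of_injective _ ker_inj, Set.ncard_eq_toFinset_card']
  congr 1
  ext k; simp

/-! ### The tope graph is not vertex-transitive -/

/-- the graph on sign vectors -/
def G' : SimpleGraph I where
  Adj σ τ := hd σ τ = 1
  symm := ⟨fun σ τ h => by
    have : hd σ τ = hd τ σ := by unfold hd; congr 1; ext k; simp [ne_comm]
    rw [← this]; exact h⟩
  loopless := ⟨fun σ h => by simp [hd] at h⟩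

instance : DecidableRel G'.Adj := fun σ τ => by unfold G'; infer_instance

lemma adj_iff (σ τ : I) : (topeGraph A).Adj (e σ) (e τ) ↔ G'.Adj σ τ := by
  unfold topeGraph
  rw [SimpleGraph.fromRel_adj, dist_eq, dist_eq]
  constructor
  · rintro ⟨_, h | h⟩
    · exact h
    · exact (G'.symm.symm _ _ h : G'.Adj σ τ)
  · intro h
    exact ⟨fun he => G'.loopless.irrefl σ (by rw [← e.injective he] at h; exact h), Or.inl h⟩

/-- the isomorphism -/
noncomputable def iso : G' ≃g topeGraph A where
  toEquiv := e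
  map_rel_iff' := by intro σ τ; exact adj_iff σ τ

/-- a chamber of degree 5 -/
def s5 : I := ⟨![true, false, false, false, true, true], by decide⟩
/-- a chamber of degree 6 -/
def s6 : I := ⟨![true, true, false, false, true, true], by decide⟩

lemma deg5 : G'.degree s5 = 5 := by decide +kernel
lemma deg6 : G'.degree s6 = 6 := by decide +kernel

lemma not_vt : ¬ VertexTransitive (topeGraph A) := by
  intro h
  obtain ⟨φ, hφ⟩ := h (iso s5) (iso s6)
  let ψ : G' ≃g G' := (iso.trans φ).trans iso.symm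
  have hψ : ψ s5 = s6 := by
    show iso.symm (φ (iso s5)) = s6
    rw [hφ]; exact iso.symm_apply_apply s6
  have h1 : G'.degree (ψ s5) = G'.degree s5 := by
    rw [← SimpleGraph.card_neighborSet_eq_degree, ← SimpleGraph.card_neighborSet_eq_degree]
    exact (Fintype.card_congr (ψ.mapNeighborSet s5)).symm
  rw [hψ, deg5, deg6] at h1
  exact absurd h1 (by decide)

/-! ### The magnitude -/

/-- the matrix on sign vectors -/
noncomputable def V' : Matrix I I (RatFunc ℚ) := fun σ τ => RatFunc.X ^ hd σ τ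

lemma varch_eq : varchenko A = V'.submatrix e.symm e.symm := by
  ext C D
  obtain ⟨σ, rfl⟩ := e.surjective C
  obtain ⟨τ, rfl⟩ := e.surjective D
  simp [varchenko, V', dist_eq]

lemma hd_eq_zero {σ τ : I} : hd σ τ = 0 ↔ σ = τ := by
  unfold hd
  rw [Finset.card_eq_zero, Finset.filter_eq_empty_iff]
  constructor
  · intro h
    apply Subtype.ext
    funext k
    have := h (Finset.mem_univ k)
    simpa using this
  · rintro rfl k _
    simp

lemma det_V' : V'.det ≠ 0 := by
  have h1 : V' = (algebraMap ℚ[X] (RatFunc ℚ)).mapMatrix (fun σ τ : I => (X : ℚ[X]) ^ hd σ τ) := by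
    ext σ τ
    simp [V', RatFunc.algebraMap_X]
  rw [h1, ← RingHom.map_det]
  intro h
  have h2 := (map_eq_zero_iff _ (RatFunc.algebraMap_injective ℚ)).1 h
  have h3 := congrArg (Polynomial.evalRingHom (0 : ℚ)) h2
  rw [RingHom.map_det] at h3
  have h4 : (Polynomial.evalRingHom (0 : ℚ)).mapMatrix (fun σ τ : I => (X : ℚ[X]) ^ hd σ τ) = 1 := by
    ext σ τ
    simp only [RingHom.mapMatrix_apply, Matrix.map_apply, coe_evalRingHom, eval_pow, eval_X]
    by_cases hst : σ = τ
    · subst hst
      rw [hd_eq_zero.2 rfl]; simp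
    · rw [zero_pow (fun h => hst (hd_eq_zero.1 h)), Matrix.one_apply_ne hst]
  rw [h4] at h3
  simp at h3

/-- two plus signs among the first four -/
def T2 (σ : I) : Bool := decide (cnt σ.1 = 2)

/-- the numbers of sign vectors of the two types at distance `m` -/
def tab (b c : Bool) : Fin 7 → ℕ :=
  if b then (if c then ![1, 2, 5, 8, 5, 2, 1] else ![0, 4, 8, 8, 8, 4, 0])
  else (if c then ![0, 3, 6, 6, 6, 3, 0] else ![1, 2, 7, 12, 7, 2, 1])

lemma tab_spec : ∀ σ : I, ∀ c : Bool, ∀ m : Fin 7,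
    (Finset.univ.filter (fun τ : I => T2 τ = c ∧ hd σ τ = m)).card = tab (T2 σ) c m := by
  decide +kernel

lemma hd_lt (σ τ : I) : hd σ τ < 7 := by
  unfold hd
  have := Finset.card_le_univ (Finset.univ.filter (fun k => σ.1 k ≠ τ.1 k))
  simp only [Fintype.card_fin] at this
  omega

/-- the denominator -/
noncomputable def Dp : ℚ[X] := (1 + X) ^ 4 * (1 + X ^ 4)
/-- the numerators of the weights -/
noncomputable def wp (b : Bool) : ℚ[X] := if b then (1 - X) ^ 2 else 1 - X + X ^ 2

lemma sum_pow (σ : I) (c : Bool) :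
    ∑ τ ∈ Finset.univ.filter (fun τ : I => T2 τ = c), (X : ℚ[X]) ^ hd σ τ =
      ∑ m : Fin 7, (tab (T2 σ) c m : ℚ[X]) * X ^ (m : ℕ) := by
  rw [← Finset.sum_fiberwise_of_maps_to (t := Finset.univ) (g := fun τ => (⟨hd σ τ, hd_lt σ τ⟩ : Fin 7))
    (fun τ _ => Finset.mem_univ _)]
  apply Finset.sum_congr rfl
  intro m _
  rw [← tab_spec σ c m, Finset.filter_filter]
  have : ∀ τ ∈ Finset.univ.filter (fun τ : I => T2 τ = c ∧ (⟨hd σ τ, hd_lt σ τ⟩ : Fin 7) = m),
      (X : ℚ[X]) ^ hd σ τ = X ^ (m : ℕ) := by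
    intro τ hτ
    have := (Finset.mem_filter.1 hτ).2.2
    rw [← this]
  rw [Finset.sum_congr rfl this, Finset.sum_const, nsmul_eq_mul]
  congr 3
  ext τ
  simp [Fin.ext_iff]

lemma weights (σ : I) : ∑ τ, (X : ℚ[X]) ^ hd σ τ * wp (T2 τ) = Dp := by
  have h1 : ∑ τ, (X : ℚ[X]) ^ hd σ τ * wp (T2 τ) =
      wp true * ∑ τ ∈ Finset.univ.filter (fun τ : I => T2 τ = true), (X : ℚ[X]) ^ hd σ τ +
      wp false * ∑ τ ∈ Finset.univ.filter (fun τ : I => T2 τ = false), (X : ℚ[X]) ^ hd σ τ := by
    rw [Finset.mul_sum, Finset.mul_sum, ← Finset.sum_filter_add_sum_filter_not Finset.univ (fun τ : I => T2 τ = true)]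
    refine congrArg₂ (· + ·) ?_ ?_
    · apply Finset.sum_congr rfl
      intro τ hτ
      rw [(Finset.mem_filter.1 hτ).2, mul_comm]
    · apply Finset.sum_congr (by ext τ; simp)
      intro τ hτ
      rw [(Finset.mem_filter.1 hτ).2, mul_comm]
  rw [h1, sum_pow, sum_pow]
  cases T2 σ <;> simp [tab, wp, Dp, Fin.sum_univ_succ] <;> ring

/-- the weights -/
noncomputable def w (σ : I) : RatFunc ℚ := algebraMap ℚ[X] (RatFunc ℚ) (wp (T2 σ)) / algebraMap ℚ[X] (RatFunc ℚ) Dp

lemma Dp_ne : Dp ≠ 0 := by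
  intro h
  have := congrArg (Polynomial.eval 0) h
  simp [Dp] at this

lemma V'_w : V'.mulVec w = 1 := by
  funext σ
  have hD : algebraMap ℚ[X] (RatFunc ℚ) Dp ≠ 0 := by
    intro h
    exact Dp_ne ((map_eq_zero_iff _ (RatFunc.algebraMap_injective ℚ)).1 h)
  have : V'.mulVec w σ = algebraMap ℚ[X] (RatFunc ℚ) (∑ τ, (X : ℚ[X]) ^ hd σ τ * wp (T2 τ)) /
      algebraMap ℚ[X] (RatFunc ℚ) Dp := by
    rw [map_sum, Finset.sum_div, Matrix.mulVec, dotProduct]
    apply Finset.sum_congr rfl
    intro τ _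
    simp only [V', w, map_mul, map_pow, RatFunc.algebraMap_X]
    ring
  rw [this, weights, div_self hD]; rfl

lemma det_A : IsUnit (Matrix.det V') := isUnit_iff_ne_zero.2 det_V'

lemma inv_one : V'⁻¹.mulVec 1 = w := by
  rw [← V'_w, Matrix.mulVec_mulVec, Matrix.nonsing_inv_mul _ det_A, Matrix.one_mulVec]

lemma count2 : (Finset.univ.filter (fun τ : I => T2 τ = true)).card = 24 := by decide +kernel
lemma count1 : (Finset.univ.filter (fun τ : I => ¬ T2 τ = true)).card = 32 := by decide +kernel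

/-- the numerator of the magnitude -/
noncomputable def Np : ℚ[X] := 24 * (1 - X) ^ 2 + 32 * (1 - X + X ^ 2)

lemma sum_w : ∑ σ, w σ = algebraMap ℚ[X] (RatFunc ℚ) Np / algebraMap ℚ[X] (RatFunc ℚ) Dp := by
  have : ∑ σ : I, wp (T2 σ) = Np := by
    rw [← Finset.sum_filter_add_sum_filter_not Finset.univ (fun τ : I => T2 τ = true)]
    have h1 : ∀ τ ∈ Finset.univ.filter (fun τ : I => T2 τ = true), wp (T2 τ) = (1 - X) ^ 2 := by
      intro τ hτ
      rw [(Finset.mem_filter.1 hτ).2]; simp [wp]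
    have h2 : ∀ τ ∈ Finset.univ.filter (fun τ : I => ¬ T2 τ = true), wp (T2 τ) = 1 - X + X ^ 2 := by
      intro τ hτ
      have := (Finset.mem_filter.1 hτ).2
      simp [wp, this]
    rw [Finset.sum_congr rfl h1, Finset.sum_congr rfl h2, Finset.sum_const, Finset.sum_const,
      count2, count1, Np]
    simp only [nsmul_eq_mul, Nat.cast_ofNat]
  rw [← this, map_sum, Finset.sum_div]
  rfl

/-- the chambers form a finite type -/
noncomputable instance : Fintype (Ch A) := Fintype.ofEquiv I e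

lemma mag_eq : mag A = algebraMap ℚ[X] (RatFunc ℚ) Np / algebraMap ℚ[X] (RatFunc ℚ) Dp := by
  classical
  unfold mag
  have h1 : (varchenko A)⁻¹ = V'⁻¹.submatrix e.symm e.symm := by
    rw [varch_eq, Matrix.inv_submatrix_equiv]
  have h2 : ∑ C, ∑ D, V'⁻¹.submatrix e.symm e.symm C D = ∑ σ, ∑ τ, V'⁻¹ σ τ := by
    rw [← Equiv.sum_comp e]
    apply Finset.sum_congr rfl
    intro σ _
    rw [← Equiv.sum_comp e]
    simp
  have h3 : ∑ σ, ∑ τ, V'⁻¹ σ τ = ∑ σ, w σ := by
    apply Finset.sum_congr rfl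
    intro σ _
    rw [← inv_one, Matrix.mulVec, dotProduct]
    simp
  rw [← sum_w, ← h3, ← h2, ← h1]

lemma vinv : VarchenkoInvertible A := by
  classical
  unfold VarchenkoInvertible
  have h : (varchenko A).det = V'.det := by
    rw [varch_eq, Matrix.det_submatrix_equiv_self]
  have h2 := det_A
  rw [← h] at h2
  convert h2

lemma not_dvd : ¬ cyclotomic 12 ℚ ∣ (mag A).denom := by
  intro h
  have h1 : (mag A).denom ∣ Dp := by
    rw [mag_eq]
    exact RatFunc.denom_div_dvd _ _
  have h2 := h.trans h1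
  obtain ⟨c, hc⟩ := h2
  have hz := Complex.isPrimitiveRoot_exp 12 (by norm_num)
  set z : ℂ := Complex.exp (2 * Real.pi * Complex.I / (12 : ℕ)) with hzdef
  have hr : (cyclotomic 12 ℂ).IsRoot z := hz.isRoot_cyclotomic (by norm_num)
  have h3 := congrArg (Polynomial.aeval z) hc
  rw [map_mul, Polynomial.aeval_def z (cyclotomic 12 ℚ), ← Polynomial.eval_map, Polynomial.map_cyclotomic,
    hr.eq_zero, zero_mul] at h3
  have h4 : (1 + z) ^ 4 * (1 + z ^ 4) = 0 := by
    have : Polynomial.aeval z Dp = (1 + z) ^ 4 * (1 + z ^ 4) := by simp [Dp]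
    rw [← this, h3]
  rcases mul_eq_zero.1 h4 with h5 | h5
  · have h6 : 1 + z = 0 := pow_eq_zero_iff (by norm_num) |>.1 h5
    have h7 : z ^ 2 = 1 := by
      have : z = -1 := by linear_combination h6
      rw [this]; norm_num
    have := (hz.pow_eq_one_iff_dvd 2).1 h7
    norm_num at this
  · have h7 : z ^ 8 = 1 := by
      have : z ^ 4 = -1 := by linear_combination h5
      calc z ^ 8 = (z ^ 4) ^ 2 := by ring
        _ = 1 := by rw [this]; norm_num
    have := (hz.pow_eq_one_iff_dvd 8).1 h7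
    norm_num at this

/-- There is an arrangement of rank 5 (with 6 hyperplanes) whose tope graph is not
vertex-transitive and for which `Φ_{2n}` does not divide the denominator of the magnitude. -/
theorem result : ∃ (d : ℕ) (A : Finset (Submodule ℝ (Fin d → ℝ))) (_ : Fintype (Ch A)),
    IsArrangement A ∧ Odd (rank A) ∧ 3 ≤ rank A ∧ VarchenkoInvertible A ∧
      ¬ VertexTransitive (topeGraph A) ∧ ¬ cyclotomic (2 * A.card) ℚ ∣ (mag A).denom := by
  refine ⟨5, A, inferInstance, isArr, ?_, ?_, vinv, not_vt, ?_⟩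
  · rw [rank_A]; decide
  · rw [rank_A]; decide
  · rw [card_A]; exact not_dvd

end Pool.Agent.Results.MP_0e848e_co.ProductArrangement
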